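import Pool.Agent.helper7.PQ.Spec

/-!
# Project pq, row VCL: exponents of the powers of `vvx`
-/

set_option autoImplicit false

open Finset PowerSeries

noncomputable section

namespace Pool.Agent.PQ

open Pool.Agent.EP

theorem VCL : VCL_stmt := by
  intro i N hN
  have h1 : vvx ^ i = HahnSeries.single (i : ℤ) (1 : ZMod 2) *
      HahnSeries.ofPowerSeries ℤ (ZMod 2)
        (PowerSeries.expand 24 (by norm_num) (helper81.EE ^ i)) := by
    have e1 : HahnSeries.single (1 : ℤ) (1 : ZMod 2) ^ i =
        HahnSeries.single (i : ℤ) (1 : ZMod 2) := by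
      rw [HahnSeries.single_pow]
      simp
    have e2 : HahnSeries.ofPowerSeries ℤ (ZMod 2)
        (PowerSeries.expand 24 (by norm_num) (helper81.EE ^ i)) =
        HahnSeries.ofPowerSeries ℤ (ZMod 2)
          (PowerSeries.expand 24 (by norm_num) helper81.EE) ^ i := by
      rw [map_pow (PowerSeries.expand 24 (by norm_num)), map_pow]
    unfold vvx
    rw [mul_pow, e1, e2]
  have h2 : (vvx ^ i).coeff N = (HahnSeries.ofPowerSeries ℤ (ZMod 2)
        (PowerSeries.expand 24 (by norm_num) (helper81.EE ^ i))).coeff (N - i) := by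
    have h3 := HahnSeries.coeff_single_mul_add (r := (1 : ZMod 2))
      (x := HahnSeries.ofPowerSeries ℤ (ZMod 2)
        (PowerSeries.expand 24 (by norm_num) (helper81.EE ^ i))) (a := N - i) (b := (i : ℤ))
    rw [one_mul, sub_add_cancel] at h3
    rw [h1, h3]
  rw [h2, PowerSeries.coeff_coe, PowerSeries.coeff_expand] at hN
  by_cases h0 : N - i < 0
  · rw [if_pos h0] at hN
    exact absurd rfl hN
  · rw [if_neg h0] at hN
    by_cases h5 : 24 ∣ (N - i).natAbs
    · refine ⟨?_, by omega⟩
      exact Int.natCast_dvd.mpr h5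
    · rw [if_neg h5] at hN
      exact absurd rfl hN

end Pool.Agent.PQ
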